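import Mathlib
import Pool.Agent.Lib_helper77.CurvUpper
import Pool.Agent.CCM.Lower

/-!
The optimal pointwise pinching of the sectional curvature which forces positivity of the curvature
operator in dimension `d`: for all manifolds, for closed manifolds, and for spheres with global
pinching (where it does not even force nonnegativity below the constant).
-/

set_option autoImplicit false
set_option maxSynthPendingDepth 3

namespace Pool.Agent.Results.MP_c9e91a_gt.PinchingConstants

open Pool.Agent.Lib_helper77 Pool.Agent.CCM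

/-- For every `d ≥ 4`, put `C = (2 ⌊d/2⌋ - 2) / (2 ⌊d/2⌋ + 1)` (here `d / 2` is the integer
quotient). Then `C` is the infimum of each of the following sets:
all `δ ∈ (0, 1]` such that every pointwise `δ`-pinched Riemannian `d`-manifold has positive
curvature operator;
all `δ ∈ (0, 1]` such that every pointwise `δ`-pinched closed Riemannian `d`-manifold has positive
curvature operator;
all `δ ∈ (0, 1]` such that every globally `δ`-pinched Riemannian manifold homeomorphic to the
`d`-dimensional sphere has nonnegative curvature operator. -/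
theorem result (d : ℕ) (hd : 4 ≤ d) :
    sInf (pinchSet d) = (2 * ((d / 2 : ℕ) : ℝ) - 2) / (2 * ((d / 2 : ℕ) : ℝ) + 1) ∧
    sInf (closedPinchSet d) = (2 * ((d / 2 : ℕ) : ℝ) - 2) / (2 * ((d / 2 : ℕ) : ℝ) + 1) ∧
    sInf (spherePinchSet d) = (2 * ((d / 2 : ℕ) : ℝ) - 2) / (2 * ((d / 2 : ℕ) : ℝ) + 1) := by
  set c : ℝ := (2 * ((d / 2 : ℕ) : ℝ) - 2) / (2 * ((d / 2 : ℕ) : ℝ) + 1) with hc
  have hk : (0:ℝ) < 2 * ((d / 2 : ℕ) : ℝ) + 1 := by positivity
  have hd2 : (2:ℝ) ≤ ((d / 2 : ℕ) : ℝ) := by
    have : 2 ≤ d / 2 := by omega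
    exact_mod_cast this
  have hc0 : 0 < c := div_pos (by linarith) hk
  have hc1 : c < 1 := by
    rw [hc, div_lt_one hk]; linarith
  have key : ∀ S : Set ℝ, pinchSet d ⊆ S → S ⊆ spherePinchSet d → sInf S = c := by
    intro S h1 h2
    have hlow : ∀ δ ∈ S, c ≤ δ := fun δ hδ => sphere_lower hd (h2 hδ)
    have hbdd : BddBelow S := ⟨c, hlow⟩
    have hmem : ∀ δ, c < δ → δ ≤ 1 → δ ∈ S := fun δ h3 h4 =>
      h1 (mem_pinchSet (by omega) (lt_trans hc0 h3) h4 h3)
    apply le_antisymm
    · apply le_of_forall_pos_le_add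
      intro ε hε
      have h5 : min 1 (c + ε) ∈ S :=
        hmem _ (lt_min hc1 (by linarith)) (min_le_left _ _)
      exact (csInf_le hbdd h5).trans (min_le_right _ _)
    · exact le_csInf ⟨1, hmem 1 hc1 le_rfl⟩ hlow
  have s1 := pinch_sub_closed d
  have s2 := closed_sub_sphere d
  exact ⟨key _ subset_rfl (s1.trans s2), key _ s1 s2, key _ (s1.trans s2) subset_rfl⟩

end Pool.Agent.Results.MP_c9e91a_gt.PinchingConstants
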